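import Pool.Agent.H776R2.Diam.Defs

set_option autoImplicit false

/-! Task U (helper415): R1 and R2 without the special elements. -/

namespace Pool.Agent.H776R2.Diam

open Pool.Agent.Results.MP_03d093_al.SphereBall Pool.Agent.H776R2.Grig

theorem U_inv_append (e : List Lt) (u : List Bool) : ∃ φ : Bool → Bool,
    (∀ y, (ev e)⁻¹ (u ++ [y]) = (ev e)⁻¹ u ++ [φ y]) ∧
    (∀ y, ev e ((ev e)⁻¹ u ++ [φ y]) = u ++ [y]) ∧ ∀ y t, φ (xor y t) = xor (φ y) t := by
  have hTA : TA ((ev e)⁻¹) := by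
    rw [← ev_reverse]
    exact ta_ev _
  have hφ : ∀ y : Bool, ∃ z : Bool, (ev e)⁻¹ (u ++ [y]) = (ev e)⁻¹ u ++ [z] := by
    intro y
    have h1 : ((ev e)⁻¹ (u ++ [y])).length = u.length + 1 := by rw [hTA.1]; simp
    have h2 : ((ev e)⁻¹ (u ++ [y])).take u.length = (ev e)⁻¹ u := by
      rw [hTA.2, List.take_append_of_le_length (by omega), List.take_of_length_le (by omega)]
    have h3 : (((ev e)⁻¹ (u ++ [y])).drop u.length).length = 1 := by rw [List.length_drop, h1]; omega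
    obtain ⟨z, hz⟩ := List.length_eq_one_iff.mp h3
    refine ⟨z, ?_⟩
    rw [← h2, ← hz, List.take_append_drop]
  choose φ hφ using hφ
  have hφ' : ∀ y, ev e ((ev e)⁻¹ u ++ [φ y]) = u ++ [y] := by
    intro y
    rw [← hφ y]
    exact Equiv.apply_symm_apply (ev e) _
  refine ⟨φ, hφ, hφ', ?_⟩
  have hφn : ∀ y, φ (!y) = !(φ y) := by
    intro y
    have hne : φ (!y) ≠ φ y := by
      intro h
      have h1 := hφ' (!y)
      rw [h, hφ' y] at h1
      have h2 : [y] = [!y] := List.append_cancel_left h1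
      cases y <;> simp at h2
    cases h1 : φ (!y) <;> cases h2 : φ y <;> simp_all
  intro y t
  cases t
  · simp
  · have := hφn y
    simpa using this

theorem U_inv_lab {j : ℕ} {q : List Bool → Bool} {e : P} (h : Lab j q e) : Lab j q e⁻¹ := by
  intro u hu x
  rw [Equiv.Perm.inv_eq_iff_eq, h u hu]
  cases x <;> cases q u <;> rfl

theorem U_comm {n : ℕ} {p : List Bool → Bool} (e s : List Lt) (h : Lab n p (ev s)) :
    Lab n (fun u => xor (p ((ev e)⁻¹ u)) (p u)) (ev (e ++ s ++ e.reverse ++ s.reverse)) := by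
  intro u hu x
  have hev : ev (e ++ s ++ e.reverse ++ s.reverse) = ev e * ev s * (ev e)⁻¹ * (ev s)⁻¹ := by
    rw [ev_append, ev_append, ev_append, ev_reverse, ev_reverse]
  have hTA : TA ((ev e)⁻¹) := by
    rw [← ev_reverse]
    exact ta_ev _
  obtain ⟨φ, h1, h2, h3⟩ := U_inv_append e u
  rw [hev]
  simp only [Equiv.Perm.mul_apply]
  have h4 : ((ev e)⁻¹ u).length = n := by rw [hTA.1, hu]
  rw [U_inv_lab h u hu x, h1, h _ h4, ← h3, h2]
  show u ++ [xor (xor x (p u)) (p ((ev e)⁻¹ u))] = u ++ [xor x (xor (p ((ev e)⁻¹ u)) (p u))]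
  cases x <;> cases p u <;> cases p ((ev e)⁻¹ u) <;> rfl

theorem R1_one (N : ℕ) : R1 N (fun _ => false) [] := lab_one _

theorem R1_mul (N : ℕ) (F F' : List Bool → Bool) (w w' : List Lt) (h : R1 N F w) (h' : R1 N F' w') :
    R1 N (fun u => xor (F u) (F' u)) (w ++ w') := by
  unfold R1
  rw [ev_append]
  exact lab_mul h h'

theorem R1_congr (N : ℕ) (F F' : List Bool → Bool) (w : List Lt)
    (h : ∀ u : List Bool, u.length = N → F u = F' u) (hw : R1 N F w) : R1 N F' w := by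
  unfold R1
  refine lab_congr ?_ hw
  intro u hu
  apply h
  rw [List.length_take]
  omega

theorem R1_comm (N : ℕ) (F : List Bool → Bool) (s e : List Lt) (h : R1 N F s) :
    R1 N (fun u => xor (F ((ev e)⁻¹ u)) (F u)) (e ++ s ++ e.reverse ++ s.reverse) := by
  unfold R1
  refine lab_congr ?_ (U_comm e s h)
  intro u _
  have hTA : TA ((ev e)⁻¹) := by
    rw [← ev_reverse]
    exact ta_ev _
  show xor (F (((ev e)⁻¹ u).take N)) (F (u.take N)) = xor (F ((ev e)⁻¹ (u.take N))) (F (u.take N))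
  rw [hTA.2]

theorem R2_one (N : ℕ) : R2 N (fun _ => false) [] :=
  ⟨fun _ => false, lab_one _, fun _ _ _ _ => rfl⟩

theorem R2_mul (N : ℕ) (F F' : List Bool → Bool) (w w' : List Lt) (h : R2 N F w) (h' : R2 N F' w') :
    R2 N (fun u => xor (F u) (F' u)) (w ++ w') := by
  obtain ⟨p, hp, hp2⟩ := h
  obtain ⟨q, hq, hq2⟩ := h'
  refine ⟨fun u => xor (p u) (q u), ?_, ?_⟩
  · rw [ev_append]
    exact lab_mul hp hq
  · intro v hv x y
    show xor (xor (p (v ++ [x, y, false])) (q (v ++ [x, y, false])))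
      (xor (p (v ++ [x, y, true])) (q (v ++ [x, y, true]))) = xor (F v) (F' v)
    rw [← hp2 v hv x y, ← hq2 v hv x y]
    cases p (v ++ [x, y, false]) <;> cases p (v ++ [x, y, true]) <;>
      cases q (v ++ [x, y, false]) <;> cases q (v ++ [x, y, true]) <;> rfl

theorem R2_congr (N : ℕ) (F F' : List Bool → Bool) (w : List Lt)
    (h : ∀ u : List Bool, u.length = N → F u = F' u) (hw : R2 N F w) : R2 N F' w := by
  obtain ⟨p, hp, hp2⟩ := hw
  refine ⟨p, hp, ?_⟩
  intro v hv x y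
  rw [hp2 v hv x y, h v hv]

theorem R2_comm (N : ℕ) (F : List Bool → Bool) (s e : List Lt) (h : R2 N F s) :
    R2 N (fun u => xor (F ((ev e)⁻¹ u)) (F u)) (e ++ s ++ e.reverse ++ s.reverse) := by
  obtain ⟨p, hp, hp2⟩ := h
  refine ⟨fun u => xor (p ((ev e)⁻¹ u)) (p u), U_comm e s hp, ?_⟩
  intro v hv x y
  have hTA : TA ((ev e)⁻¹) := by
    rw [← ev_reverse]
    exact ta_ev _
  obtain ⟨φ1, h1, -, -⟩ := U_inv_append e v
  obtain ⟨φ2, h2, -, -⟩ := U_inv_append e (v ++ [x])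
  obtain ⟨φ3, h3, -, h3'⟩ := U_inv_append e (v ++ [x] ++ [y])
  have key : ∀ z, (ev e)⁻¹ (v ++ [x, y, z]) = (ev e)⁻¹ v ++ [φ1 x, φ2 y, φ3 z] := by
    intro z
    have : v ++ [x, y, z] = v ++ [x] ++ [y] ++ [z] := by simp
    rw [this, h3, h2, h1]
    simp
  show xor (xor (p ((ev e)⁻¹ (v ++ [x, y, false]))) (p (v ++ [x, y, false])))
    (xor (p ((ev e)⁻¹ (v ++ [x, y, true]))) (p (v ++ [x, y, true]))) = xor (F ((ev e)⁻¹ v)) (F v)
  rw [key, key, ← hp2 v hv x y, ← hp2 ((ev e)⁻¹ v) (by rw [hTA.1, hv]) (φ1 x) (φ2 y)]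
  have hn : φ3 true = !(φ3 false) := by
    have := h3' false true
    simpa using this
  rw [hn]
  cases φ3 false <;> simp only [Bool.not_false, Bool.not_true] <;>
    cases p ((ev e)⁻¹ v ++ [φ1 x, φ2 y, false]) <;> cases p ((ev e)⁻¹ v ++ [φ1 x, φ2 y, true]) <;>
    cases p (v ++ [x, y, false]) <;> cases p (v ++ [x, y, true]) <;> rfl

end Pool.Agent.H776R2.Diam
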