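import Pool.Agent.H776R2.Diam.Tsm

set_option autoImplicit false

namespace Pool.Agent.H776R2.Diam

open Pool.Agent.Results.MP_03d093_al.SphereBall Pool.Agent.H776R2.Grig

theorem X_lab_inv {n : ℕ} {p : List Bool → Bool} {g : P} (h : Lab n p g) (u : List Bool)
    (hu : u.length = n) (x : Bool) : g⁻¹ (u ++ [x]) = u ++ [xor x (p u)] := by
  rw [Equiv.Perm.inv_eq_iff_eq, h u hu]
  simp

theorem X_one {R : ℕ → (List Bool → Bool) → List Lt → Prop} (hR : Rel R) {A S : ℝ}
    (hA : ∀ (k : ℕ) (p : List Bool → Bool), ∃ w : List Lt,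
      (w.length : ℝ) ≤ A * lam ^ k ∧ Lab (k + 2) (fun u => p (u.take k)) (ev w))
    (hS : ∀ (h : List Bool → Bool) (m j : ℕ), ∃ s : List Lt,
      (s.length : ℝ) ≤ S * lam ^ m * 2 ^ j ∧ R (m + 3 + j) (sp h m j) s)
    (m j : ℕ) (q : List Bool → Bool) (t : List Bool) (ht : t.length = 2) :
    ∃ (c : List Lt) (P : List Bool → Bool), R (m + 3 + j) P c ∧
      (c.length : ℝ) ≤ 2 * (A * lam ^ m) + 2 * (S * lam ^ m * 2 ^ j) ∧
      ∀ v : List Bool, v.length = m + 3 →
        Tsum j P v = (decide ((v.drop m).take 2 = t) && q (v.take m ++ t)) := by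
  obtain ⟨e, he, hle⟩ := hA m (fun u => q (u ++ t))
  obtain ⟨s, hs, hls⟩ := hS (fun y => decide (y.take 2 = t) && y.getD 2 false) m j
  refine ⟨_, _, hR.comm _ _ _ e hls, ?_, ?_⟩
  · simp only [List.length_append, List.length_reverse]
    push_cast
    linarith
  · intro v hv
    obtain ⟨v', x, rfl⟩ : ∃ v' x, v = v' ++ [x] := by
      rcases List.eq_nil_or_concat v with h | ⟨v', x, h⟩
      · subst h; simp at hv
      · exact ⟨v', x, by rw [h]; simp⟩
    have hv' : v'.length = m + 2 := by simpa using hv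
    have hinv := X_lab_inv hle v' hv' x
    rw [Tsum_xor, Tsum_inv, hinv, Tsum_sp _ _ _ _ (by simp [hv']), Tsum_sp _ _ _ _ hv]
    have h1 : ∀ y : Bool, (v' ++ [y]).drop m = v'.drop m ++ [y] := by
      intro y
      rw [List.drop_append_of_le_length (by omega)]
    have h2 : (v'.drop m).length = 2 := by simp [hv']
    have h3 : ∀ y : Bool, (v'.drop m ++ [y]).take 2 = v'.drop m := by
      intro y
      rw [List.take_append_of_le_length (by omega), List.take_of_length_le (by omega)]
    have h4 : ∀ y : Bool, (v'.drop m ++ [y]).getD 2 false = y := by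
      intro y
      simp [List.getD_eq_getElem?_getD, List.getElem?_append_right, h2]
    have h5 : (v' ++ [x]).take m = v'.take m := by
      rw [List.take_append_of_le_length (by omega)]
    simp only [h1, h3, h4, h5]
    cases decide (v'.drop m = t) <;> cases x <;> cases q (v'.take m ++ t) <;> rfl

theorem X_stage {R : ℕ → (List Bool → Bool) → List Lt → Prop} (hR : Rel R) {A S : ℝ}
    (hA : ∀ (k : ℕ) (p : List Bool → Bool), ∃ w : List Lt,
      (w.length : ℝ) ≤ A * lam ^ k ∧ Lab (k + 2) (fun u => p (u.take k)) (ev w))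
    (hS : ∀ (h : List Bool → Bool) (m j : ℕ), ∃ s : List Lt,
      (s.length : ℝ) ≤ S * lam ^ m * 2 ^ j ∧ R (m + 3 + j) (sp h m j) s)
    (m j : ℕ) (q : List Bool → Bool) :
    ∃ (c : List Lt) (P : List Bool → Bool), R (m + 3 + j) P c ∧
      (c.length : ℝ) ≤ 8 * (A * lam ^ m) + 8 * (S * lam ^ m * 2 ^ j) ∧
      ∀ v : List Bool, v.length = m + 3 → Tsum j P v = q (v.take (m + 2)) := by
  obtain ⟨c0, P0, r0, l0, t0⟩ := X_one hR hA hS m j q [false, false] rfl
  obtain ⟨c1, P1, r1, l1, t1⟩ := X_one hR hA hS m j q [false, true] rfl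
  obtain ⟨c2, P2, r2, l2, t2⟩ := X_one hR hA hS m j q [true, false] rfl
  obtain ⟨c3, P3, r3, l3, t3⟩ := X_one hR hA hS m j q [true, true] rfl
  refine ⟨_, _, hR.mul _ _ _ _ _ (hR.mul _ _ _ _ _ r0 r1) (hR.mul _ _ _ _ _ r2 r3), ?_, ?_⟩
  · simp only [List.length_append]
    push_cast
    linarith
  · intro v hv
    rw [Tsum_xor, Tsum_xor, Tsum_xor, t0 v hv, t1 v hv, t2 v hv, t3 v hv]
    obtain ⟨y, z, hyz⟩ : ∃ y z, (v.drop m).take 2 = [y, z] := by
      have : ((v.drop m).take 2).length = 2 := by simp [hv]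
      exact List.length_eq_two.1 this
    have h1 : v.take (m + 2) = v.take m ++ [y, z] := by
      rw [List.take_add, hyz]
    rw [h1, hyz]
    cases y <;> cases z <;> simp

theorem chain {R : ℕ → (List Bool → Bool) → List Lt → Prop} (hR : Rel R) :
    ∃ C : ℝ, 0 < C ∧ ∀ (N : ℕ) (F : List Bool → Bool), ∃ w : List Lt,
      (w.length : ℝ) ≤ C * lam ^ N ∧ R N F w := by
  obtain ⟨A, hA0, hA⟩ := realize
  obtain ⟨S, hS0, hS⟩ := hR.special
  choose B hB using hR.small
  have hl1 := lam_gt
  have hl2 := lam_lt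
  set D : ℝ := 50 * (A + S) with hD
  have hD0 : 0 < D := by positivity
  have hDl : 2 * D + 8 * (A + S) * lam ≤ D * lam := by
    rw [hD]
    nlinarith
  have hB0 : ∀ n, (0 : ℝ) ≤ B n := fun _ => Nat.cast_nonneg _
  refine ⟨D + B 0 + B 1 + B 2, by have := hB0 0; have := hB0 1; have := hB0 2; positivity, ?_⟩
  intro N F
  have hlN : (1 : ℝ) ≤ lam ^ N := one_le_pow₀ (by linarith)
  by_cases hN : N < 3
  · obtain ⟨w, hw, hr⟩ := hB N F
    refine ⟨w, ?_, hr⟩
    have h1 : (w.length : ℝ) ≤ B N := by exact_mod_cast hw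
    have h2 : (B N : ℝ) ≤ D + B 0 + B 1 + B 2 := by
      have := hB0 0
      have := hB0 1
      have := hB0 2
      interval_cases N <;> linarith
    nlinarith
  · obtain ⟨M, rfl⟩ : ∃ M, N = M + 3 := ⟨N - 3, by omega⟩
    have claim : ∀ m : ℕ, m ≤ M → ∃ (w : List Lt) (P : List Bool → Bool), R (M + 3) P w ∧
        (w.length : ℝ) ≤ D * (lam ^ m * 2 ^ (M - m)) ∧
        ∀ v : List Bool, v.length = m + 3 → Tsum (M - m) P v = Tsum (M - m) F v := by
      intro m
      induction m with
      | zero =>
        intro _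
        obtain ⟨s, hs, hls⟩ := hS (fun v => Tsum M F v) 0 M
        refine ⟨s, _, by simpa [add_comm] using hls, ?_, ?_⟩
        · refine hs.trans ?_
          have h1 : (0 : ℝ) < 2 ^ M := by positivity
          simp only [pow_zero, mul_one, one_mul, Nat.sub_zero]
          have : S ≤ D := by rw [hD]; linarith
          exact mul_le_mul_of_nonneg_right this h1.le
        · intro v hv
          simp only [Nat.sub_zero]
          rw [Tsum_sp _ _ _ _ hv]
          simp
      | succ m ih =>
        intro hm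
        obtain ⟨w, Pw, hr, hw, ht⟩ := ih (by omega)
        have hj : M - m = (M - (m + 1)) + 1 := by omega
        set j := M - (m + 1) with hjdef
        obtain ⟨c, Pc, rc, lc, tc⟩ := X_stage hR hA hS (m + 1) j
          (fun v' => xor (Tsum j F (v' ++ [false])) (Tsum j Pw (v' ++ [false])))
        have hN' : m + 1 + 3 + j = M + 3 := by omega
        rw [hN'] at rc
        refine ⟨_, _, hR.mul _ _ _ _ _ hr rc, ?_, ?_⟩
        · rw [List.length_append]
          push_cast
          have hp : (0 : ℝ) < lam ^ m * 2 ^ j := mul_pos (pow_pos lam_pos m) (by positivity)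
          have hp1 : (0 : ℝ) < lam ^ m := pow_pos lam_pos m
          have h2j : (1 : ℝ) ≤ 2 ^ j := one_le_pow₀ (by norm_num)
          have hw' : (w.length : ℝ) ≤ 2 * D * (lam ^ m * 2 ^ j) := by
            rw [hj, pow_succ] at hw
            linarith
          have hc' : (c.length : ℝ) ≤ 8 * (A + S) * lam * (lam ^ m * 2 ^ j) := by
            have h3 : A * lam ^ (m + 1) ≤ A * lam ^ (m + 1) * 2 ^ j := by
              have : 0 ≤ A * lam ^ (m + 1) := by have := pow_pos lam_pos (m + 1); positivity
              nlinarith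
            calc (c.length : ℝ) ≤ 8 * (A * lam ^ (m + 1)) + 8 * (S * lam ^ (m + 1) * 2 ^ j) := lc
              _ ≤ 8 * (A * lam ^ (m + 1) * 2 ^ j) + 8 * (S * lam ^ (m + 1) * 2 ^ j) := by linarith
              _ = 8 * (A + S) * lam * (lam ^ m * 2 ^ j) := by ring
          calc (w.length : ℝ) + c.length ≤ (2 * D + 8 * (A + S) * lam) * (lam ^ m * 2 ^ j) := by
                linarith
            _ ≤ (D * lam) * (lam ^ m * 2 ^ j) := mul_le_mul_of_nonneg_right hDl hp.le
            _ = D * (lam ^ (m + 1) * 2 ^ j) := by ring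
        · intro v hv
          rw [Tsum_xor, tc v hv]
          obtain ⟨v', x, rfl⟩ : ∃ v' x, v = v' ++ [x] := by
            rcases List.eq_nil_or_concat v with h | ⟨v', x, h⟩
            · subst h; simp at hv
            · exact ⟨v', x, by rw [h]; simp⟩
          have hv' : v'.length = m + 3 := by simpa using hv
          have h5 : (v' ++ [x]).take (m + 1 + 2) = v' := by
            rw [List.take_append_of_le_length (by omega), List.take_of_length_le (by omega)]
          rw [h5]
          have h6 := ht v' hv'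
          rw [hj] at h6
          simp only [Tsum] at h6
          revert h6
          cases x
          · cases Tsum j Pw (v' ++ [false]) <;> cases Tsum j F (v' ++ [false]) <;> simp
          · cases Tsum j Pw (v' ++ [false]) <;> cases Tsum j F (v' ++ [false]) <;>
              cases Tsum j Pw (v' ++ [true]) <;> cases Tsum j F (v' ++ [true]) <;> simp
    obtain ⟨w, Pw, hr, hw, ht⟩ := claim M le_rfl
    refine ⟨w, ?_, hR.congr _ _ _ _ ?_ hr⟩
    · simp only [Nat.sub_self, pow_zero, mul_one] at hw
      have h1 : lam ^ M ≤ lam ^ (M + 3) := pow_le_pow_right₀ (by linarith) (by omega)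
      have h2 : D * lam ^ M ≤ D * lam ^ (M + 3) := mul_le_mul_of_nonneg_left h1 hD0.le
      have := hB0 0
      have := hB0 1
      have := hB0 2
      nlinarith
    · intro u hu
      have := ht u hu
      simpa [Tsum] using this

end Pool.Agent.H776R2.Diam
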