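import Pool.Agent.H776R2.Grig.Realize
import Pool.Agent.Results.MP_b99418_al.ExactLength

set_option autoImplicit false

/-! Definitions for the diameters of the level quotients of the Grigorchuk group. -/

namespace Pool.Agent.H776R2.Diam

open Pool.Agent.Results.MP_03d093_al.SphereBall Pool.Agent.H776R2.Grig

/-- sum (mod 2) of `f` over the words `v ++ y`, `y` of length `j` -/
def Tsum : ℕ → (List Bool → Bool) → List Bool → Bool
  | 0, f, v => f v
  | j + 1, f, v => xor (Tsum j f (v ++ [false])) (Tsum j f (v ++ [true]))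

/-- the word `w` acts on level `N + 2` by: letter number `N + 2` is flipped iff `F` of the first `N` letters -/
def R1 (N : ℕ) (F : List Bool → Bool) (w : List Lt) : Prop :=
  Lab (N + 1) (fun u => F (u.take N)) (ev w)

/-- the word `w` fixes level `N + 3`, with a label function `p` on level `N + 3` such that
`p(v x y 0) + p(v x y 1) = F(v)` for all `v` of length `N` -/
def R2 (N : ℕ) (F : List Bool → Bool) (w : List Lt) : Prop :=
  ∃ p : List Bool → Bool, Lab (N + 3) p (ev w) ∧
    ∀ v : List Bool, v.length = N → ∀ x y : Bool,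
      xor (p (v ++ [x, y, false])) (p (v ++ [x, y, true])) = F v

/-- the function `h(x_{m+1}, x_{m+2}, x_{m+3}) · x_{m+4} ⋯ x_{m+3+j}` -/
def sp (h : List Bool → Bool) (m j : ℕ) (u : List Bool) : Bool :=
  h ((u.drop m).take 3) && decide ((u.drop (m + 3)).take j = List.replicate j true)

/-- the properties of `R1` and `R2` that are used -/
structure Rel (R : ℕ → (List Bool → Bool) → List Lt → Prop) : Prop where
  one : ∀ N, R N (fun _ => false) []
  mul : ∀ N F F' w w', R N F w → R N F' w' → R N (fun u => xor (F u) (F' u)) (w ++ w')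
  congr : ∀ N F F' w, (∀ u : List Bool, u.length = N → F u = F' u) → R N F w → R N F' w
  comm : ∀ N F s (e : List Lt), R N F s →
    R N (fun u => xor (F ((ev e)⁻¹ u)) (F u)) (e ++ s ++ e.reverse ++ s.reverse)
  special : ∃ S : ℝ, 0 < S ∧ ∀ (h : List Bool → Bool) (m j : ℕ), ∃ s : List Lt,
    (s.length : ℝ) ≤ S * lam ^ m * 2 ^ j ∧ R (m + 3 + j) (sp h m j) s
  small : ∀ N, ∃ B : ℕ, ∀ F : List Bool → Bool, ∃ w : List Lt, w.length ≤ B ∧ R N F w

end Pool.Agent.H776R2.Diam
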