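import Pool.Agent.H776R2.Diam.Defs

set_option autoImplicit false

/-! Every element of the Grigorchuk group agrees on level `n` with a word of length `O(λ^n)`
(assembly, task E). -/

namespace Pool.Agent.H776R2.Diam

open Pool.Agent.Results.MP_03d093_al.SphereBall Pool.Agent.H776R2.Grig

theorem E_reverse (w : List Lt) : ev w.reverse = (ev w)⁻¹ := by
  induction w with
  | nil => simp
  | cons s w ih => rw [List.reverse_cons, ev_append, ih, ev_cons, ev_cons, ev_nil, mul_inv_rev, gen_inv,
      mul_one]

/-- finite levels -/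
theorem E_fin (n : ℕ) : ∃ B : ℕ, ∀ w : List Lt, ∃ w' : List Lt, w'.length ≤ B ∧
    ∀ u : List Bool, u.length = n → ev w u = ev w' u := by
  classical
  let X := {u : List Bool // u.length = n}
  have hfin : Finite X := List.finite_length_eq Bool n
  haveI : Fintype X := Fintype.ofFinite X
  let φ : List Lt → X → X := fun w u => ⟨ev w u.1, by rw [(ta_ev w).1]; exact u.2⟩
  let rep : (X → X) → List Lt := fun f => if h : ∃ w, φ w = f then h.choose else []
  refine ⟨Finset.univ.sup (fun f => (rep f).length), fun w => ⟨rep (φ w), ?_, ?_⟩⟩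
  · exact Finset.le_sup (f := fun f => (rep f).length) (Finset.mem_univ (φ w))
  · intro u hu
    have h : ∃ w', φ w' = φ w := ⟨w, rfl⟩
    have h1 : φ (rep (φ w)) = φ w := by
      simp only [rep, dif_pos h]
      exact h.choose_spec
    have h2 := congrArg Subtype.val (congrFun h1 ⟨u, hu⟩)
    exact h2.symm

/-- elements fixing level `n` have a label function on level `n` -/
theorem E_lab (n : ℕ) (f : List Lt) (hf : ∀ u : List Bool, u.length = n → ev f u = u) :
    ∃ p : List Bool → Bool, Lab n p (ev f) := by
  have hTA := ta_ev f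
  have key : ∀ u : List Bool, u.length = n → ∀ x : Bool, ∃ z : Bool, ev f (u ++ [x]) = u ++ [z] := by
    intro u hu x
    have h1 : (ev f (u ++ [x])).length = n + 1 := by rw [hTA.1]; simp [hu]
    have h2 : (ev f (u ++ [x])).take n = u := by
      rw [hTA.2, List.take_append_of_le_length (by omega), List.take_of_length_le (by omega), hf u hu]
    have h3 : ((ev f (u ++ [x])).drop n).length = 1 := by rw [List.length_drop, h1]; omega
    obtain ⟨z, hz⟩ := List.length_eq_one_iff.mp h3
    refine ⟨z, ?_⟩
    conv_rhs => rw [← h2, ← hz]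
    rw [List.take_append_drop]
  refine ⟨fun u => (ev f (u ++ [false])).getD n false, ?_⟩
  intro u hu x
  obtain ⟨z0, h0⟩ := key u hu false
  obtain ⟨z1, h1⟩ := key u hu true
  have hne : z0 ≠ z1 := by
    rintro rfl
    have := (ev f).injective (h0.trans h1.symm)
    have h2 : [false] = [true] := List.append_cancel_left this
    simp at h2
  have hget : (ev f (u ++ [false])).getD n false = z0 := by
    rw [h0, List.getD_append_right _ _ _ _ (by omega), hu]
    simp
  simp only [hget]
  cases x
  · rw [h0]; simp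
  · rw [h1]
    cases z0 <;> cases z1 <;> simp_all

/-- the assembly -/
theorem short_words_of (hR1 : Rel R1) (hR2 : Rel R2)
    (hchain : ∀ R : ℕ → (List Bool → Bool) → List Lt → Prop, Rel R →
      ∃ C : ℝ, 0 < C ∧ ∀ (N : ℕ) (F : List Bool → Bool), ∃ w : List Lt,
        (w.length : ℝ) ≤ C * lam ^ N ∧ R N F w)
    (hker : ∀ (n : ℕ) (w : List Lt) (p : List Bool → Bool), Lab (n + 3) p (ev w) →
      ∃ F : List Bool → Bool, ∀ v : List Bool, v.length = n → ∀ x y : Bool,
        xor (p (v ++ [x, y, false])) (p (v ++ [x, y, true])) = F v) :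
    ∃ C : ℝ, 0 < C ∧ ∀ (n : ℕ) (w : List Lt), ∃ w' : List Lt,
      (w'.length : ℝ) ≤ C * lam ^ n ∧ ∀ u : List Bool, u.length = n → ev w u = ev w' u := by
  obtain ⟨C1, hC1, h1⟩ := hchain R1 hR1
  obtain ⟨C2, hC2, h2⟩ := hchain R2 hR2
  choose B hB using E_fin
  have hlam : 2 < lam := by have := lam_gt; linarith
  refine ⟨C1 + C2 + (B 0 + B 1 + B 2 + B 3 : ℕ), by positivity, ?_⟩
  set C : ℝ := C1 + C2 + (B 0 + B 1 + B 2 + B 3 : ℕ) with hC
  have hCpos : 0 < C := by positivity
  have small : ∀ n, n ≤ 3 → ∀ w : List Lt, ∃ w' : List Lt,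
      (w'.length : ℝ) ≤ C * lam ^ n ∧ ∀ u : List Bool, u.length = n → ev w u = ev w' u := by
    intro n hn w
    obtain ⟨w', hw', hag⟩ := hB n w
    refine ⟨w', ?_, hag⟩
    have e1 : (w'.length : ℝ) ≤ (B 0 + B 1 + B 2 + B 3 : ℕ) := by
      have : w'.length ≤ B 0 + B 1 + B 2 + B 3 := by
        interval_cases n <;> omega
      exact_mod_cast this
    have e2 : (1 : ℝ) ≤ lam ^ n := one_le_pow₀ (by linarith)
    nlinarith
  intro n
  induction n with
  | zero => exact small 0 (by norm_num)
  | succ n ih =>
    rcases Nat.lt_or_ge n 3 with hn | hn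
    · exact small (n + 1) (by omega)
    · intro w
      obtain ⟨k, rfl⟩ : ∃ k, n = k + 3 := ⟨n - 3, by omega⟩
      obtain ⟨w1, hw1, hag1⟩ := ih w
      set f := w1.reverse ++ w with hf
      have hevf : ev f = (ev w1)⁻¹ * ev w := by rw [hf, ev_append, E_reverse]
      have hfix : ∀ u : List Bool, u.length = k + 3 → ev f u = u := by
        intro u hu
        rw [hevf, Equiv.Perm.mul_apply, hag1 u hu]
        simp
      obtain ⟨p, hp⟩ := E_lab (k + 3) f hfix
      obtain ⟨F, hF⟩ := hker k f p hp
      obtain ⟨w2, hw2, p2, hp2, hF2⟩ := h2 k F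
      let F1 : List Bool → Bool := fun u => xor (p (u ++ [false])) (p2 (u ++ [false]))
      obtain ⟨w3, hw3, hp3⟩ := h1 (k + 2) F1
      refine ⟨w1 ++ w2 ++ w3, ?_, ?_⟩
      · have e1 : lam ^ k ≤ lam ^ (k + 3) := pow_le_pow_right₀ (by linarith) (by omega)
        have e2 : lam ^ (k + 2) ≤ lam ^ (k + 3) := pow_le_pow_right₀ (by linarith) (by omega)
        have e3 : 0 < lam ^ (k + 3) := by positivity
        have e4 : C1 * lam ^ (k + 2) ≤ C1 * lam ^ (k + 3) := mul_le_mul_of_nonneg_left e2 hC1.le
        have e5 : C2 * lam ^ k ≤ C2 * lam ^ (k + 3) := mul_le_mul_of_nonneg_left e1 hC2.le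
        have e6 : C1 + C2 ≤ C := by
          rw [hC]
          have : (0 : ℝ) ≤ ((B 0 + B 1 + B 2 + B 3 : ℕ) : ℝ) := by positivity
          linarith
        have e7 : lam ^ (k + 3 + 1) = lam * lam ^ (k + 3) := by ring
        rw [e7]
        simp only [List.length_append, Nat.cast_add]
        have e8 : (C1 + C2) * lam ^ (k + 3) ≤ C * lam ^ (k + 3) := mul_le_mul_of_nonneg_right e6 e3.le
        have e9 : 2 * (C * lam ^ (k + 3)) ≤ lam * (C * lam ^ (k + 3)) :=
          mul_le_mul_of_nonneg_right hlam.le (by positivity)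
        nlinarith
      · intro u' hu'
        obtain ⟨u, x, rfl⟩ : ∃ u x, u' = u ++ [x] := by
          refine ⟨u'.dropLast, u'.getLast (by intro h; simp [h] at hu'), ?_⟩
          rw [List.dropLast_append_getLast]
        have hu : u.length = k + 3 := by simpa using hu'
        have hlab : Lab (k + 3) (fun u => xor (p2 u) (F1 (u.take (k + 2)))) (ev (w2 ++ w3)) := by
          rw [ev_append]
          exact lab_mul hp2 hp3
        have hpu : xor (p2 u) (F1 (u.take (k + 2))) = p u := by
          obtain ⟨v, x1, x2, x3, rfl, hv⟩ : ∃ v x1 x2 x3, u = v ++ [x1, x2, x3] ∧ v.length = k := by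
            have hd : (u.drop k).length = 3 := by simp [hu]
            obtain ⟨x1, x2, x3, hx⟩ := List.length_eq_three.1 hd
            exact ⟨u.take k, x1, x2, x3, by rw [← hx, List.take_append_drop], by simp [hu]⟩
          have e1 : (v ++ [x1, x2, x3]).take (k + 2) = v ++ [x1, x2] := by
            rw [List.take_append, hv, List.take_of_length_le (by omega)]
            simp
          have a1 := hF v hv x1 x2
          have a2 := hF2 v hv x1 x2
          rw [e1]
          simp only [F1, List.append_assoc, List.cons_append, List.nil_append]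
          cases x3
          · cases p2 (v ++ [x1, x2, false]) <;> cases p (v ++ [x1, x2, false]) <;> rfl
          · rw [← a2] at a1
            revert a1
            cases p2 (v ++ [x1, x2, false]) <;> cases p (v ++ [x1, x2, false]) <;>
              cases p2 (v ++ [x1, x2, true]) <;> cases p (v ++ [x1, x2, true]) <;> simp
        have h3 : ev (w2 ++ w3) (u ++ [x]) = ev f (u ++ [x]) := by
          rw [hlab u hu x, hp u hu x]
          simp only [hpu]
        rw [List.append_assoc, ev_append, Equiv.Perm.mul_apply, h3, hevf, Equiv.Perm.mul_apply]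
        simp

end Pool.Agent.H776R2.Diam
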