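import Pool.Agent.H776R2.Diam.Defs

set_option autoImplicit false

/-! Task I: translation to the diameters `D n` and the numbers `L n` of `ExactLength.lean`. -/

namespace Pool.Agent.H776R2.Diam

open Pool.Agent.Results.MP_03d093_al.SphereBall Pool.Agent.H776R2.Grig

theorem lam_le_L : ∃ C : ℝ, 0 < C ∧ ∀ n : ℕ, 1 ≤ n →
    lam ^ n ≤ C * (Pool.Agent.Results.MP_b99418_al.ExactLength.L n : ℝ) := by
  refine ⟨2, by norm_num, ?_⟩
  have h0 := lam_pos
  have h1 := lam_eq
  have h2 := lam_lt
  have key : ∀ n : ℕ, lam ^ (n + 1) ≤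
      2 * (Pool.Agent.Results.MP_b99418_al.ExactLength.L (n + 1) : ℝ) := by
    intro n
    induction n using Nat.strong_induction_on with
    | _ n ih =>
      rcases n with _ | _ | _ | n
      · simp only [Pool.Agent.Results.MP_b99418_al.ExactLength.L]
        norm_num
        linarith
      · simp only [Pool.Agent.Results.MP_b99418_al.ExactLength.L]
        norm_num
        nlinarith
      · simp only [Pool.Agent.Results.MP_b99418_al.ExactLength.L]
        norm_num
        nlinarith
      · have e1 := ih n (by omega)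
        have e2 := ih (n + 1) (by omega)
        have e3 := ih (n + 2) (by omega)
        have e4 : Pool.Agent.Results.MP_b99418_al.ExactLength.L (n + 3 + 1) =
            Pool.Agent.Results.MP_b99418_al.ExactLength.L (n + 2 + 1) +
            2 * Pool.Agent.Results.MP_b99418_al.ExactLength.L (n + 1 + 1) +
            4 * Pool.Agent.Results.MP_b99418_al.ExactLength.L (n + 1) := rfl
        have e5 : lam ^ (n + 3 + 1) = lam ^ (n + 2 + 1) + 2 * lam ^ (n + 1 + 1) +
            4 * lam ^ (n + 1) := by
          calc lam ^ (n + 3 + 1) = lam ^ 3 * lam ^ (n + 1) := by ring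
            _ = (lam ^ 2 + 2 * lam + 4) * lam ^ (n + 1) := by rw [h1]
            _ = _ := by ring
        show lam ^ (n + 3 + 1) ≤
          2 * (Pool.Agent.Results.MP_b99418_al.ExactLength.L (n + 3 + 1) : ℝ)
        rw [e4, e5]
        push_cast
        linarith
  intro n hn
  obtain ⟨m, rfl⟩ : ∃ m, n = m + 1 := ⟨n - 1, by omega⟩
  exact key m

/-- translation of letters -/
def I_lt : Pool.Agent.Results.MP_b99418_al.ExactLength.Gen → Lt
  | .a => .A
  | .b => .B
  | .c => .C
  | .d => .D

/-- translation of letters -/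
def I_gen : Lt → Pool.Agent.Results.MP_b99418_al.ExactLength.Gen
  | .A => .a
  | .B => .b
  | .C => .c
  | .D => .d

theorem I_lt_gen (x : Lt) : I_lt (I_gen x) = x := by cases x <;> rfl

theorem I_act (w : List Bool) : ∀ x : Pool.Agent.Results.MP_b99418_al.ExactLength.Gen,
    Pool.Agent.Results.MP_b99418_al.ExactLength.act x w = gen (I_lt x) w := by
  induction w with
  | nil =>
    intro x
    cases x <;> simp [Pool.Agent.Results.MP_b99418_al.ExactLength.act, I_lt, gen, a_apply,
      b_apply, c_apply, d_apply, aFun, bFun, cFun, dFun]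
  | cons s w ih =>
    intro x
    have ha := ih .a
    have hb := ih .b
    have hc := ih .c
    have hd := ih .d
    simp only [I_lt, gen, a_apply, b_apply, c_apply, d_apply] at ha hb hc hd
    cases x <;> cases s <;>
      simp [Pool.Agent.Results.MP_b99418_al.ExactLength.act, I_lt, gen, a_apply,
      b_apply, c_apply, d_apply, aFun, bFun, cFun, dFun, ha, hb, hc, hd]

theorem I_ev (l : List Pool.Agent.Results.MP_b99418_al.ExactLength.Gen) (u : List Bool) :
    Pool.Agent.Results.MP_b99418_al.ExactLength.ev l u = ev (l.map I_lt) u := by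
  induction l with
  | nil => rfl
  | cons x l ih =>
    rw [Pool.Agent.Results.MP_b99418_al.ExactLength.ev_cons, ih, I_act, List.map_cons, ev_cons,
      Equiv.Perm.mul_apply]

theorem I_word (n : ℕ) {g : Equiv.Perm (Pool.Agent.Results.MP_b99418_al.ExactLength.Level n)}
    (hg : g ∈ Pool.Agent.Results.MP_b99418_al.ExactLength.G n) :
    ∃ l : List Pool.Agent.Results.MP_b99418_al.ExactLength.Gen,
      (l.map (Pool.Agent.Results.MP_b99418_al.ExactLength.gen n)).prod = g := by
  unfold Pool.Agent.Results.MP_b99418_al.ExactLength.G at hg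
  induction hg using Subgroup.closure_induction with
  | mem x hx =>
    obtain ⟨y, rfl⟩ := hx
    exact ⟨[y], by simp⟩
  | one => exact ⟨[], rfl⟩
  | mul x y _ _ hx hy =>
    obtain ⟨l, rfl⟩ := hx
    obtain ⟨l', rfl⟩ := hy
    exact ⟨l ++ l', by rw [List.map_append, List.prod_append]⟩
  | inv x _ hx =>
    obtain ⟨l, rfl⟩ := hx
    refine ⟨l.reverse, ?_⟩
    rw [List.prod_inv_reverse, List.map_map, ← List.map_reverse]
    congr 1

theorem D_le_of_short
    (h : ∃ C : ℝ, 0 < C ∧ ∀ (n : ℕ) (w : List Lt), ∃ w' : List Lt,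
      (w'.length : ℝ) ≤ C * lam ^ n ∧ ∀ u : List Bool, u.length = n → ev w u = ev w' u) :
    ∃ C : ℝ, 0 < C ∧ ∀ n : ℕ,
      (Pool.Agent.Results.MP_b99418_al.ExactLength.D n : ℝ) ≤ C * lam ^ n := by
  obtain ⟨C, hC, hw⟩ := h
  refine ⟨C, hC, fun n => ?_⟩
  have h0 : 0 ≤ C * lam ^ n := mul_nonneg hC.le (pow_nonneg lam_pos.le n)
  have key : Pool.Agent.Results.MP_b99418_al.ExactLength.D n ≤ ⌊C * lam ^ n⌋₊ := by
    unfold Pool.Agent.Results.MP_b99418_al.ExactLength.D
    refine csSup_le ⟨_, 1, Subgroup.one_mem _, rfl⟩ ?_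
    rintro k ⟨g, hg, rfl⟩
    obtain ⟨l, hl⟩ := I_word n hg
    obtain ⟨w', hlen, hw'⟩ := hw n (l.map I_lt)
    rw [Nat.le_floor_iff h0]
    refine le_trans ?_ hlen
    have h2 : Pool.Agent.Results.MP_b99418_al.ExactLength.len n g ≤ w'.length := by
      unfold Pool.Agent.Results.MP_b99418_al.ExactLength.len
      refine Nat.sInf_le ⟨w'.map I_gen, List.length_map _, ?_⟩
      rw [← hl]
      refine Equiv.ext fun u => Subtype.ext ?_
      rw [Pool.Agent.Results.MP_b99418_al.ExactLength.prod_apply,
        Pool.Agent.Results.MP_b99418_al.ExactLength.prod_apply, I_ev, I_ev, hw' u.1 u.2,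
        List.map_map]
      congr 2
      conv_rhs => rw [← List.map_id w']
      exact List.map_congr_left fun x _ => I_lt_gen x
    exact_mod_cast h2
  calc (Pool.Agent.Results.MP_b99418_al.ExactLength.D n : ℝ) ≤ (⌊C * lam ^ n⌋₊ : ℝ) := by
        exact_mod_cast key
    _ ≤ C * lam ^ n := Nat.floor_le h0

end Pool.Agent.H776R2.Diam
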