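import Pool.Agent.H776R2.Diam.Defs

set_option autoImplicit false

/-! Task V: iterated doubling of a good word. -/

namespace Pool.Agent.H776R2.Diam

open Pool.Agent.Results.MP_03d093_al.SphereBall Pool.Agent.H776R2.Grig

theorem V_iter (n : ℕ) (hn : 1 ≤ n) (p : List Bool → Bool)
    (hinv : ∀ u : List Bool, u.length = n → p (aFun u) = p u) (v : List V) (e : Bool)
    (he : Even (v.count V.b) ↔ e = false) (h0 : Lab n p (ev (U v) * pa e)) (k : ℕ) :
    (Even ((th^[k] v).count V.b) ↔ e = false) ∧
    Lab (n + k) (fun u => p (u.drop k)) (ev (U (th^[k] v)) * pa e) := by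
  induction k with
  | zero => exact ⟨he, by simpa using h0⟩
  | succ k ih =>
    obtain ⟨ih1, ih2⟩ := ih
    rw [Function.iterate_succ_apply']
    refine ⟨?_, ?_⟩
    · rw [count_b_th, Nat.even_add, ih1]
      have : Even (2 * (th^[k] v).count V.c) := even_two_mul _
      simp [this]
    · have hs := S_sec (th^[k] v) e ih1
      have hl := lab_sec hs (lab_conj_a (by omega) ih2) ih2
      refine lab_congr ?_ hl
      intro u hu
      match u, hu with
      | x :: u, hu =>
        have hu' : u.length = n + k := by
          simp only [List.length_cons] at hu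
          omega
        have key : p ((aFun u).drop k) = p (u.drop k) := by
          rcases k with _ | k
          · simpa using hinv u (by omega)
          · cases u with
            | nil => simp [aFun]
            | cons y u => simp [aFun]
        cases x
        · simpa using key
        · simp
      | [], hu => simp at hu

theorem iter_good (w : List Lt) (hw : Good w) (n : ℕ) (hn : 1 ≤ n) (p : List Bool → Bool)
    (hp : Lab n p (ev w)) (hinv : ∀ u : List Bool, u.length = n → p (aFun u) = p u) (k : ℕ) :
    ∃ W : List Lt, (W.length : ℝ) ≤ (4 * w.length + 1) * lam ^ k ∧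
      Lab (n + k) (fun u => p (u.drop k)) (ev W) := by
  have hl1 : (1 : ℝ) ≤ lam := by have := lam_gt; linarith
  have hpk : (0 : ℝ) < lam ^ k := pow_pos lam_pos k
  have hpk1 : (1 : ℝ) ≤ lam ^ k := one_le_pow₀ hl1
  obtain ⟨e0, e1, v, hev, hvl, -, hcd, hA⟩ := normal_form w
  have hcd' : Even (v.count V.c + v.count V.d) := hcd.2 (hw.eC.add hw.eD)
  have hA' : Even (v.length + e0.toNat + e1.toNat) := hA.2 hw.eA
  have hpar : Even (v.count V.b) ↔ xor e0 e1 = false := by
    have h1 := S_count v
    rw [add_assoc] at h1
    have h2 : Even v.length ↔ Even (v.count V.b) := by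
      rw [h1, Nat.even_add]
      simp [hcd']
    rw [← h2]
    cases e0 <;> cases e1 <;>
      simp only [Bool.toNat_false, Bool.toNat_true, add_zero, Nat.even_add_one] at hA' <;>
      simp [hA'] <;> simpa using hA'
  have hconj : ev (U v) * pa (xor e0 e1) = pa e0 * ev w * pa e0 := by
    rw [hev]
    have h1 : pa e0 * pa e0 = 1 := by rw [S_pa_mul]; simp [pa]
    have h2 : pa e1 * pa e0 = pa (xor e0 e1) := by rw [S_pa_mul, Bool.xor_comm]
    calc ev (U v) * pa (xor e0 e1) = (pa e0 * pa e0) * ev (U v) * (pa e1 * pa e0) := by
          rw [h1, h2, one_mul]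
      _ = _ := by simp only [mul_assoc]
  have hlab0 : Lab n p (ev (U v) * pa (xor e0 e1)) := by
    rw [hconj]
    cases e0
    · simpa [pa] using hp
    · have h1 := lab_conj_a hn hp
      have h2 : pa true = a := by simp [pa]
      rw [h2]
      exact lab_congr hinv h1
  obtain ⟨-, hk⟩ := V_iter n hn p hinv v (xor e0 e1) hpar hlab0 k
  have hlen := length_th_iter v k
  have hvB : (v.length : ℝ) ≤ w.length := by exact_mod_cast hvl
  have hmain : (2 * (th^[k] v).length + 1 : ℝ) ≤ (4 * w.length + 1) * lam ^ k := by
    have h1 : (2 * v.length * lam ^ k : ℝ) ≤ 2 * w.length * lam ^ k := by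
      apply mul_le_mul_of_nonneg_right _ hpk.le
      linarith
    calc (2 * (th^[k] v).length + 1 : ℝ) ≤ 2 * (2 * w.length * lam ^ k) + lam ^ k := by linarith
      _ = (4 * w.length + 1) * lam ^ k := by ring
  cases hx : xor e0 e1
  · refine ⟨U (th^[k] v), ?_, ?_⟩
    · rw [S_U_length]
      push_cast
      linarith
    · rw [hx] at hk
      simpa [pa] using hk
  · refine ⟨U (th^[k] v) ++ [Lt.A], ?_, ?_⟩
    · rw [List.length_append, S_U_length]
      push_cast
      simp only [List.length_cons, List.length_nil]
      push_cast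
      linarith
    · rw [hx] at hk
      simpa [pa, ev_append, gen] using hk

end Pool.Agent.H776R2.Diam
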