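import Pool.Agent.H776R2.Diam.Defs

set_option autoImplicit false

/-! Task Y (helper415): the label functions of elements fixing level `n + 3`. -/

namespace Pool.Agent.H776R2.Diam

open Pool.Agent.Results.MP_03d093_al.SphereBall Pool.Agent.H776R2.Grig

theorem Y_gen (s : Lt) (x : Bool) : ∃ (x' : Bool) (w' : List Lt), ∀ u : List Bool,
    gen s (x :: u) = x' :: ev w' u := by
  cases s <;> cases x
  · exact ⟨true, [], fun u => rfl⟩
  · exact ⟨false, [], fun u => rfl⟩
  · exact ⟨false, [Lt.A], fun u => by simp [gen, b_apply, bFun, a_apply]⟩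
  · exact ⟨true, [Lt.C], fun u => by simp [gen, b_apply, bFun, c_apply]⟩
  · exact ⟨false, [Lt.A], fun u => by simp [gen, c_apply, cFun, a_apply]⟩
  · exact ⟨true, [Lt.D], fun u => by simp [gen, c_apply, cFun, d_apply]⟩
  · exact ⟨false, [], fun u => by simp [gen, d_apply, dFun]⟩
  · exact ⟨true, [Lt.B], fun u => by simp [gen, d_apply, dFun, b_apply]⟩

theorem Y_self (w : List Lt) (x : Bool) : ∃ (x' : Bool) (w' : List Lt), ∀ u : List Bool,
    ev w (x :: u) = x' :: ev w' u := by
  induction w with
  | nil => exact ⟨x, [], fun u => rfl⟩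
  | cons s w ih =>
    obtain ⟨x', w', h⟩ := ih
    obtain ⟨x'', w'', h'⟩ := Y_gen s x'
    refine ⟨x'', w'' ++ w', fun u => ?_⟩
    rw [ev_cons, Equiv.Perm.mul_apply, h u, h' _, ev_append, Equiv.Perm.mul_apply]

/-- the invariants -/
def Y_I (l0 l1 m00 m01 m10 m11 d00 d01 d10 d11 : Bool) : Bool :=
  (xor d00 d01 == xor l1 (xor m00 m01)) && ((xor d10 d11 == xor l0 (xor m10 m11)) &&
    (xor d00 d10 == xor (l0 && l1) (xor m01 m11)))

/-- labels of the generators -/
def Y_r : Lt → Bool
  | .A => true
  | _ => false

def Y_l : Lt → Bool → Bool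
  | .B, x => !x
  | .C, x => !x
  | _, _ => false

def Y_m : Lt → Bool → Bool → Bool
  | .B, x, y => x && !y
  | .D, x, y => x && !y
  | _, _, _ => false

def Y_k : Lt → Bool → Bool → Bool → Bool
  | .C, x, y, z => x && (y && !z)
  | .D, x, y, z => x && (y && !z)
  | _, _, _, _ => false

def Y_d : Lt → Bool → Bool → Bool
  | .C, x, y => x && y
  | .D, x, y => x && y
  | _, _, _ => false

theorem Y_act (s : Lt) (x y z t : Bool) : gen s [x, y, z, t] =
    [xor x (Y_r s), xor y (Y_l s x), xor z (Y_m s x y), xor t (Y_k s x y z)] := by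
  cases s <;> cases x <;> cases y <;> cases z <;> cases t <;>
    simp [gen, a_apply, b_apply, c_apply, d_apply, aFun, bFun, cFun, dFun, Y_r, Y_l, Y_m, Y_k]

theorem Y_kd (s : Lt) (x y z : Bool) : xor (Y_k s x y z) (Y_k s x y (!z)) = Y_d s x y := by
  cases s <;> cases x <;> cases y <;> cases z <;> rfl

/-- the state of an element on level `4` -/
structure Y_S (g : P) (r : Bool) (l : Bool → Bool) (m : Bool → Bool → Bool)
    (k : Bool → Bool → Bool → Bool) : Prop where
  act : ∀ x y z t, g [x, y, z, t] = [xor x r, xor y (l x), xor z (m x y), xor t (k x y z)]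
  inv : Y_I (l false) (l true) (m false false) (m false true) (m true false) (m true true)
    (xor (k false false false) (k false false true)) (xor (k false true false) (k false true true))
    (xor (k true false false) (k true false true)) (xor (k true true false) (k true true true)) = true

theorem Y_step (s : Lt) : ∀ r l0 l1 m00 m01 m10 m11 d00 d01 d10 d11 : Bool,
    Y_I l0 l1 m00 m01 m10 m11 d00 d01 d10 d11 = true →
    Y_I (xor l0 (Y_l s r)) (xor l1 (Y_l s (!r)))
      (xor m00 (Y_m s r l0)) (xor m01 (Y_m s r (!l0)))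
      (xor m10 (Y_m s (!r) l1)) (xor m11 (Y_m s (!r) (!l1)))
      (xor d00 (Y_d s r l0)) (xor d01 (Y_d s r (!l0)))
      (xor d10 (Y_d s (!r) l1)) (xor d11 (Y_d s (!r) (!l1))) = true := by
  cases s <;> decide +kernel

theorem Y_D (s : Lt) (k0 k1 x y m : Bool) :
    xor (xor k0 (Y_k s x y (xor false m))) (xor k1 (Y_k s x y (xor true m))) =
      xor (xor k0 k1) (Y_d s x y) := by
  rw [← Y_kd s x y m]
  cases m <;> cases k0 <;> cases k1 <;> simp [Bool.xor_comm]

theorem Y_state (w : List Lt) : ∃ (r : Bool) (l : Bool → Bool) (m : Bool → Bool → Bool)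
    (k : Bool → Bool → Bool → Bool), Y_S (ev w) r l m k := by
  induction w with
  | nil =>
    refine ⟨false, fun _ => false, fun _ _ => false, fun _ _ _ => false, ?_, rfl⟩
    intro x y z t
    simp
  | cons s w ih =>
    obtain ⟨r, l, m, k, h1, h2⟩ := ih
    refine ⟨xor r (Y_r s), fun x => xor (l x) (Y_l s (xor x r)),
      fun x y => xor (m x y) (Y_m s (xor x r) (xor y (l x))),
      fun x y z => xor (k x y z) (Y_k s (xor x r) (xor y (l x)) (xor z (m x y))), ?_, ?_⟩
    · intro x y z t
      rw [ev_cons, Equiv.Perm.mul_apply, h1, Y_act]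
      simp only [Bool.xor_assoc]
    · have h3 := Y_step s r _ _ _ _ _ _ _ _ _ _ h2
      simp only [Y_D]
      simpa only [Bool.false_xor, Bool.true_xor] using h3

theorem Y_zero (w : List Lt) (p : List Bool → Bool) (hp : Lab 3 p (ev w)) (x y : Bool) :
    xor (p [x, y, false]) (p [x, y, true]) = xor (p [false, false, false]) (p [false, false, true]) := by
  obtain ⟨r, l, m, k, h1, h2⟩ := Y_state w
  have h3 : ∀ x y z t : Bool, [x, y, z, xor t (p [x, y, z])] =
      [xor x r, xor y (l x), xor z (m x y), xor t (k x y z)] := by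
    intro x y z t
    rw [← h1 x y z t]
    exact (hp [x, y, z] rfl t).symm
  have h4 : ∀ x y z : Bool, r = false ∧ l x = false ∧ m x y = false ∧ p [x, y, z] = k x y z := by
    intro x y z
    have h5 := h3 x y z false
    simp only [List.cons.injEq, and_true] at h5
    obtain ⟨e1, e2, e3, e4⟩ := h5
    refine ⟨?_, ?_, ?_, ?_⟩
    · cases x <;> simpa using e1.symm
    · generalize l x = b at e2 ⊢
      revert e2
      cases y <;> cases b <;> decide
    · generalize m x y = b at e3 ⊢
      revert e3
      cases z <;> cases b <;> decide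
    · simpa using e4
  rw [(h4 x y false).2.2.2, (h4 x y true).2.2.2, (h4 false false false).2.2.2,
    (h4 false false true).2.2.2]
  rw [(h4 false false false).2.1, (h4 true false false).2.1, (h4 false false false).2.2.1,
    (h4 false true false).2.2.1, (h4 true false false).2.2.1, (h4 true true false).2.2.1] at h2
  have key : ∀ d00 d01 d10 d11 : Bool, Y_I false false false false false false d00 d01 d10 d11 = true →
      d01 = d00 ∧ d10 = d00 ∧ d11 = d00 := by decide
  obtain ⟨k1, k2, k3⟩ := key _ _ _ _ h2
  cases x <;> cases y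
  · rfl
  · exact k1
  · exact k2
  · exact k3

theorem kernel (n : ℕ) (w : List Lt) (p : List Bool → Bool) (hp : Lab (n + 3) p (ev w)) :
    ∃ F : List Bool → Bool, ∀ v : List Bool, v.length = n → ∀ x y : Bool,
      xor (p (v ++ [x, y, false])) (p (v ++ [x, y, true])) = F v := by
  induction n generalizing w p with
  | zero =>
    refine ⟨fun _ => xor (p [false, false, false]) (p [false, false, true]), ?_⟩
    intro v hv x y
    have : v = [] := List.length_eq_zero_iff.1 hv
    subst this
    exact Y_zero w p (by simpa using hp) x y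
  | succ n ih =>
    have h1 : ∀ x : Bool, ∃ F : List Bool → Bool, ∀ v : List Bool, v.length = n → ∀ y z : Bool,
        xor (p (x :: (v ++ [y, z, false]))) (p (x :: (v ++ [y, z, true]))) = F v := by
      intro x
      obtain ⟨x', w', h⟩ := Y_self w x
      apply ih w' (fun u => p (x :: u))
      intro u hu y
      have h2 := hp (x :: u) (by simp [hu]) y
      rw [List.cons_append, h] at h2
      rw [List.cons_append, List.cons.injEq] at h2
      exact h2.2
    choose F hF using h1
    refine ⟨fun v => F (v.headD false) v.tail, ?_⟩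
    intro v hv x y
    match v with
    | [] => simp at hv
    | z :: v => exact hF z v (by simpa using hv) x y

end Pool.Agent.H776R2.Diam
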