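import Pool.Agent.H776R2.Diam.Defs
import Pool.Agent.H776R2.Diam.IterG

set_option autoImplicit false
set_option linter.unusedSimpArgs false

/-! Task W (helper415): special elements with many forced letters. -/

namespace Pool.Agent.H776R2.Diam

open Pool.Agent.Results.MP_03d093_al.SphereBall Pool.Agent.H776R2.Grig

/-- all first `j` letters are `1` -/
def W_all (j : ℕ) (u : List Bool) : Bool := decide (u.take j = List.replicate j true)

/-- label functions used -/
def W_f (q0 : List Bool → Bool) (h : List Bool → Bool) (i j m : ℕ) (u : List Bool) : Bool :=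
  h ((u.drop m).take i) && (W_all j (u.drop (m + i)) && q0 (u.drop (m + i + j)))

theorem W_all_cons (j : ℕ) (y : Bool) (u : List Bool) : W_all (j + 1) (y :: u) = (y && W_all j u) := by
  unfold W_all
  rw [List.take_succ_cons, List.replicate_succ]
  cases y <;> simp

/-- a base word -/
structure W_base (r : ℕ) (q0 : List Bool → Bool) (c : List Lt) : Prop where
  good : Good c
  cnt : 2 * c.count Lt.A = c.length
  len : c.length ≤ 8
  one : 1 ≤ c.length
  lab : Lab r q0 (ev c)

theorem W_sig_len (w : List Lt) : (sig w).length = w.length + 2 * w.count Lt.A := by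
  induction w with
  | nil => simp [sig]
  | cons s w ih =>
    rw [B_sig_cons, List.length_append, ih]
    cases s <;> simp [sg, List.count_cons] <;> omega

theorem W_iter {r : ℕ} {q0 : List Bool → Bool} {c : List Lt} (hc : W_base r q0 c) (j : ℕ) :
    Good (sig^[j] c) ∧ 2 * (sig^[j] c).count Lt.A = (sig^[j] c).length ∧
      (sig^[j] c).length = c.length * 2 ^ j ∧
      Lab (j + r) (fun u => W_all j u && q0 (u.drop j)) (ev (sig^[j] c)) := by
  induction j with
  | zero =>
    refine ⟨hc.good, hc.cnt, by simp, ?_⟩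
    refine lab_congr (p := q0) ?_ (by simpa using hc.lab)
    intro u _
    simp [W_all]
  | succ j ih =>
    obtain ⟨h1, h2, h3, h4⟩ := ih
    rw [Function.iterate_succ_apply']
    have hl := W_sig_len (sig^[j] c)
    have hA := (B_count_sig (sig^[j] c)).1
    refine ⟨B_good_sig h1, by omega, ?_, ?_⟩
    · rw [hl, h2, h3]; ring
    · have hs := sec_sig (sig^[j] c)
      rw [h1.t1] at hs
      have := lab_sec hs (lab_one (j + r)) h4
      rw [show j + 1 + r = j + r + 1 by ring]
      refine lab_congr ?_ this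
      intro u hu
      match u with
      | [] => simp at hu
      | false :: u => simp [W_all_cons]
      | true :: u => simp [W_all_cons]

theorem W_tree {r : ℕ} {q0 : List Bool → Bool} {c : List Lt} (hc : W_base r q0 c) (j i : ℕ) :
    ∀ h : List Bool → Bool, ∃ w : List Lt, Good w ∧ w.length ≤ 8 ^ i * (8 * 2 ^ j) ∧
      Lab (i + j + r) (W_f q0 h i j 0) (ev w) := by
  induction i with
  | zero =>
    intro h
    obtain ⟨h1, -, h3, h4⟩ := W_iter hc j
    rcases hh : h [] with _ | _
    · refine ⟨[], B_good_nil, by simp, ?_⟩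
      refine lab_congr (p := fun _ => false) ?_ (lab_one _)
      intro u _
      simp [W_f, hh]
    · refine ⟨sig^[j] c, h1, ?_, ?_⟩
      · rw [h3, pow_zero, one_mul]
        exact Nat.mul_le_mul_right _ hc.len
      · rw [zero_add]
        refine lab_congr ?_ h4
        intro u _
        simp [W_f, hh]
  | succ i ih =>
    intro h
    obtain ⟨w0, g0, l0, e0⟩ := ih (fun u => h (false :: u))
    obtain ⟨w1, g1, l1, e1⟩ := ih (fun u => h (true :: u))
    refine ⟨B_join w0 w1, B_join_good g0 g1, ?_, ?_⟩
    · refine (B_join_length w0 w1 _ l0 l1).trans ?_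
      have h1 : 1 ≤ 8 ^ i * (8 * 2 ^ j) := Nat.one_le_iff_ne_zero.2 (by positivity)
      have h2 : 8 ^ (i + 1) * (8 * 2 ^ j) = 8 * (8 ^ i * (8 * 2 ^ j)) := by ring
      rw [h2]
      omega
    · rw [show i + 1 + j + r = i + j + r + 1 by ring]
      refine lab_congr ?_ (lab_sec (B_join_sec g0 g1) e0 e1)
      intro u hu
      have e2 : i + 1 + j = (i + j) + 1 := by ring
      match u with
      | [] => simp at hu
      | false :: u =>
        simp only [W_f, List.drop_zero, zero_add, e2, List.drop_succ_cons, List.take_succ_cons]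
        simp
      | true :: u =>
        simp only [W_f, List.drop_zero, zero_add, e2, List.drop_succ_cons, List.take_succ_cons]
        simp

theorem W_special {r : ℕ} {q0 : List Bool → Bool} {c : List Lt} (hc : W_base r q0 c)
    (h : List Bool → Bool) (m j : ℕ) : ∃ s : List Lt,
    (s.length : ℝ) ≤ 150000 * lam ^ m * 2 ^ j ∧ Lab (m + 3 + j + r) (W_f q0 h 3 j m) (ev s) := by
  obtain ⟨w, gw, lw, ew⟩ := W_tree hc j 3 h
  have hl1 : (1 : ℝ) ≤ lam := by have := lam_gt; linarith
  have hlw : (w.length : ℝ) ≤ 4096 * 2 ^ j := by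
    have : w.length ≤ 4096 * 2 ^ j := by
      refine lw.trans (le_of_eq ?_)
      norm_num
      ring
    exact_mod_cast this
  have h2j : (1 : ℝ) ≤ 2 ^ j := one_le_pow₀ (by norm_num)
  rcases m with _ | m
  · refine ⟨w, ?_, ?_⟩
    · rw [pow_zero, mul_one]
      linarith
    · rw [zero_add]
      exact ew
  · -- one more step
    have hlab : Lab (1 + 3 + j + r) (W_f q0 h 3 j 1) (ev (B_join w w)) := by
      rw [show 1 + 3 + j + r = 3 + j + r + 1 by ring]
      refine lab_congr ?_ (lab_sec (B_join_sec gw gw) ew ew)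
      intro u hu
      match u with
      | [] => simp at hu
      | y :: u =>
        have e1 : 1 + 3 = 3 + 1 := by norm_num
        have e2 : 1 + 3 + j = (3 + j) + 1 := by ring
        simp only [W_f, e1, e2, List.drop_succ_cons]
        simp only [List.tail_cons, ite_self]
    have hinv : ∀ u : List Bool, u.length = 1 + 3 + j + r →
        W_f q0 h 3 j 1 (aFun u) = W_f q0 h 3 j 1 u := by
      intro u hu
      match u with
      | [] => simp at hu; omega
      | y :: u =>
        have e3 : 1 + 3 + j = (3 + j) + 1 := by ring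
        have e4 : 1 + 3 = 3 + 1 := by norm_num
        unfold W_f aFun
        rw [e3, e4]
        simp only [List.drop_succ_cons]
    obtain ⟨W, hW1, hW2⟩ := iter_good (B_join w w) (B_join_good gw gw) (1 + 3 + j + r) (by omega)
      (W_f q0 h 3 j 1) hlab hinv m
    refine ⟨W, ?_, ?_⟩
    · refine hW1.trans ?_
      have h5 : ((B_join w w).length : ℝ) ≤ 6 * (4096 * 2 ^ j) + 2 := by
        have h6 : (B_join w w).length ≤ 6 * w.length + 2 := B_join_length w w _ le_rfl le_rfl
        have h7 : ((B_join w w).length : ℝ) ≤ 6 * w.length + 2 := by exact_mod_cast h6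
        linarith
      have h8 : (4 * ((B_join w w).length : ℝ) + 1) ≤ 150000 * 2 ^ j := by linarith
      have h9 : (0 : ℝ) ≤ lam ^ m := by positivity
      have h10 : lam ^ m ≤ lam ^ (m + 1) := by
        rw [pow_succ]
        nlinarith
      calc (4 * ((B_join w w).length : ℝ) + 1) * lam ^ m ≤ (150000 * 2 ^ j) * lam ^ m :=
            mul_le_mul_of_nonneg_right h8 h9
        _ ≤ (150000 * 2 ^ j) * lam ^ (m + 1) := mul_le_mul_of_nonneg_left h10 (by positivity)
        _ = _ := by ring
    · rw [show m + 1 + 3 + j + r = 1 + 3 + j + r + m by ring]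
      refine lab_congr ?_ hW2
      intro u _
      unfold W_f
      simp only [List.drop_drop]
      rw [show m + 1 = m + 1 from rfl, show m + (1 + 3) = m + 1 + 3 by ring,
        show m + (1 + 3 + j) = m + 1 + 3 + j by ring]

/-! `R1` -/

theorem W_base1 : W_base 1 (fun _ => true) [Lt.A, Lt.B, Lt.A, Lt.B] := by
  refine ⟨B_good_abab, by simp [List.count_cons], by simp, by simp, ?_⟩
  intro u hu x
  match u, hu with
  | [y], _ =>
    cases y <;> cases x <;>
      simp [ev, gen, a_apply, b_apply, aFun, bFun, cFun, dFun]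

theorem W_R1 (N : ℕ) (F p : List Bool → Bool) (w : List Lt)
    (h : ∀ u : List Bool, u.length = N + 1 → p u = F (u.take N)) (hw : Lab (N + 1) p (ev w)) :
    R1 N F w := lab_congr h hw

theorem R1_small (N : ℕ) : ∃ B : ℕ, ∀ F : List Bool → Bool, ∃ w : List Lt, w.length ≤ B ∧ R1 N F w := by
  refine ⟨8 ^ N * (8 * 2 ^ 0), fun F => ?_⟩
  obtain ⟨w, -, h2, h3⟩ := W_tree W_base1 0 N F
  refine ⟨w, h2, W_R1 N F _ w ?_ h3⟩
  intro u _
  simp [W_f, W_all]

theorem W_sp (h : List Bool → Bool) (m j : ℕ) (u : List Bool) :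
    sp h m j (u.take (m + 3 + j)) = (h ((u.drop m).take 3) && W_all j (u.drop (m + 3))) := by
  unfold sp W_all
  rw [List.drop_take, List.drop_take, List.take_take, List.take_take]
  have e1 : min 3 (m + 3 + j - m) = 3 := by omega
  have e2 : min j (m + 3 + j - (m + 3)) = j := by omega
  rw [e1, e2]

theorem R1_special : ∃ S : ℝ, 0 < S ∧ ∀ (h : List Bool → Bool) (m j : ℕ), ∃ s : List Lt,
    (s.length : ℝ) ≤ S * lam ^ m * 2 ^ j ∧ R1 (m + 3 + j) (sp h m j) s := by
  refine ⟨150000, by norm_num, fun h m j => ?_⟩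
  obtain ⟨s, h1, h2⟩ := W_special W_base1 h m j
  refine ⟨s, h1, W_R1 _ _ _ s ?_ h2⟩
  intro u _
  rw [W_sp]
  simp [W_f]

/-! `R2` -/

theorem W_base2 : W_base 3 (fun u => !(u.getD 2 false))
    [Lt.A, Lt.C, Lt.A, Lt.C, Lt.A, Lt.C, Lt.A, Lt.C] := by
  have hadad : (a * d) * (a * d) = (d * a) * (d * a) := by
    have := adad
    calc (a * d) * (a * d) = a * d * a * d := by group
      _ = d * (a * d * a) := this
      _ = (d * a) * (d * a) := by group
  refine ⟨?_, by simp [List.count_cons], by simp, by simp, ?_⟩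
  · refine ⟨?_, ?_, ?_, ?_, ?_, ?_⟩
    · have e : tau [Lt.A, Lt.C, Lt.A, Lt.C, Lt.A, Lt.C, Lt.A, Lt.C] =
          ((d * a) * (d * a)) * ((d * a) * (d * a)) := by
        simp [tau, tauG, mul_assoc]
      rw [e]
      nth_rewrite 1 [← hadad]
      calc (a * d) * (a * d) * ((d * a) * (d * a)) = a * d * a * (d * d) * a * (d * a) := by group
        _ = a * d * (a * a) * (d * a) := by rw [dd, mul_one]; group
        _ = a * (d * d) * a := by rw [aa, mul_one]; group
        _ = 1 := by rw [dd, mul_one, aa]
    · have e : tau (sig [Lt.A, Lt.C, Lt.A, Lt.C, Lt.A, Lt.C, Lt.A, Lt.C]) =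
          (d * a * d) * ((d * a * d) * ((d * a * d) * (d * a * d))) := by
        simp [sg, sig, tau, tauG, mul_assoc]
      have e2 : (d * a * d) * (d * a * d) = 1 := by
        calc (d * a * d) * (d * a * d) = d * a * (d * d) * a * d := by group
          _ = d * (a * a) * d := by rw [dd, mul_one]; group
          _ = 1 := by rw [aa, mul_one, dd]
      rw [e, e2, mul_one, e2]
    · simp [List.count_cons]; decide
    · simp [List.count_cons]
    · simp [List.count_cons]; decide
    · simp [List.count_cons]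
  · intro u hu x
    match u, hu with
    | [y1, y2, y3], _ =>
      cases y1 <;> cases y2 <;> cases y3 <;> cases x <;>
        simp [ev, gen, a_apply, c_apply, aFun, bFun, cFun, dFun]

theorem W_R2 (N : ℕ) (F p : List Bool → Bool) (w : List Lt)
    (h : ∀ u : List Bool, u.length = N + 3 → p u = (F (u.take N) && !((u.drop N).getD 2 false)))
    (hw : Lab (N + 3) p (ev w)) : R2 N F w := by
  refine ⟨p, hw, ?_⟩
  intro v hv x y
  rw [h _ (by simp [hv]), h _ (by simp [hv])]
  rw [List.take_append_of_le_length (by omega), List.take_append_of_le_length (by omega),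
    List.take_of_length_le (by omega), List.drop_append_of_le_length (by omega),
    List.drop_append_of_le_length (by omega), List.drop_of_length_le (by omega)]
  simp

theorem R2_small (N : ℕ) : ∃ B : ℕ, ∀ F : List Bool → Bool, ∃ w : List Lt, w.length ≤ B ∧ R2 N F w := by
  refine ⟨8 ^ N * (8 * 2 ^ 0), fun F => ?_⟩
  obtain ⟨w, -, h2, h3⟩ := W_tree W_base2 0 N F
  refine ⟨w, h2, W_R2 N F _ w ?_ h3⟩
  intro u _
  simp [W_f, W_all]

theorem R2_special : ∃ S : ℝ, 0 < S ∧ ∀ (h : List Bool → Bool) (m j : ℕ), ∃ s : List Lt,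
    (s.length : ℝ) ≤ S * lam ^ m * 2 ^ j ∧ R2 (m + 3 + j) (sp h m j) s := by
  refine ⟨150000, by norm_num, fun h m j => ?_⟩
  obtain ⟨s, h1, h2⟩ := W_special W_base2 h m j
  refine ⟨s, h1, W_R2 _ _ _ s ?_ h2⟩
  intro u _
  rw [W_sp]
  simp only [W_f, Bool.and_assoc]

end Pool.Agent.H776R2.Diam
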