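import Pool.Agent.H776R2.Diam.Defs

set_option autoImplicit false

namespace Pool.Agent.H776R2.Diam

open Pool.Agent.Results.MP_03d093_al.SphereBall Pool.Agent.H776R2.Grig

/-! ### Task T, file Tsm.lean -/

theorem Tsum_xor (j : ℕ) (f g : List Bool → Bool) (v : List Bool) :
    Tsum j (fun u => xor (f u) (g u)) v = xor (Tsum j f v) (Tsum j g v) := sorry

theorem Tsum_congr (j : ℕ) (f g : List Bool → Bool) (v : List Bool)
    (h : ∀ u : List Bool, u.length = v.length + j → f u = g u) : Tsum j f v = Tsum j g v := sorry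

/-- equivariance -/
theorem Tsum_inv (j : ℕ) (f : List Bool → Bool) (e : List Lt) (v : List Bool) :
    Tsum j (fun u => f ((ev e)⁻¹ u)) v = Tsum j f ((ev e)⁻¹ v) := sorry

theorem Tsum_sp (h : List Bool → Bool) (m j : ℕ) (v : List Bool) (hv : v.length = m + 3) :
    Tsum j (sp h m j) v = h (v.drop m) := sorry

/-! ### Task U, file Axi.lean : R1 and R2 without the special elements -/

theorem R1_one (N : ℕ) : R1 N (fun _ => false) [] := sorry
theorem R1_mul (N : ℕ) (F F' : List Bool → Bool) (w w' : List Lt) (h : R1 N F w) (h' : R1 N F' w') :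
    R1 N (fun u => xor (F u) (F' u)) (w ++ w') := sorry
theorem R1_congr (N : ℕ) (F F' : List Bool → Bool) (w : List Lt)
    (h : ∀ u : List Bool, u.length = N → F u = F' u) (hw : R1 N F w) : R1 N F' w := sorry
theorem R1_comm (N : ℕ) (F : List Bool → Bool) (s e : List Lt) (h : R1 N F s) :
    R1 N (fun u => xor (F ((ev e)⁻¹ u)) (F u)) (e ++ s ++ e.reverse ++ s.reverse) := sorry
theorem R2_one (N : ℕ) : R2 N (fun _ => false) [] := sorry
theorem R2_mul (N : ℕ) (F F' : List Bool → Bool) (w w' : List Lt) (h : R2 N F w) (h' : R2 N F' w') :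
    R2 N (fun u => xor (F u) (F' u)) (w ++ w') := sorry
theorem R2_congr (N : ℕ) (F F' : List Bool → Bool) (w : List Lt)
    (h : ∀ u : List Bool, u.length = N → F u = F' u) (hw : R2 N F w) : R2 N F' w := sorry
theorem R2_comm (N : ℕ) (F : List Bool → Bool) (s e : List Lt) (h : R2 N F s) :
    R2 N (fun u => xor (F ((ev e)⁻¹ u)) (F u)) (e ++ s ++ e.reverse ++ s.reverse) := sorry

/-! ### Task V, file IterG.lean : iterated doubling of a good word -/

theorem iter_good (w : List Lt) (hw : Good w) (n : ℕ) (hn : 1 ≤ n) (p : List Bool → Bool)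
    (hp : Lab n p (ev w)) (hinv : ∀ u : List Bool, u.length = n → p (aFun u) = p u) (k : ℕ) :
    ∃ W : List Lt, (W.length : ℝ) ≤ (4 * w.length + 1) * lam ^ k ∧
      Lab (n + k) (fun u => p (u.drop k)) (ev W) := sorry

/-! ### Task W, file Spec.lean : special elements with many forced letters -/

theorem R1_small (N : ℕ) : ∃ B : ℕ, ∀ F : List Bool → Bool, ∃ w : List Lt, w.length ≤ B ∧ R1 N F w :=
  sorry
theorem R2_small (N : ℕ) : ∃ B : ℕ, ∀ F : List Bool → Bool, ∃ w : List Lt, w.length ≤ B ∧ R2 N F w :=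
  sorry
theorem R1_special : ∃ S : ℝ, 0 < S ∧ ∀ (h : List Bool → Bool) (m j : ℕ), ∃ s : List Lt,
    (s.length : ℝ) ≤ S * lam ^ m * 2 ^ j ∧ R1 (m + 3 + j) (sp h m j) s := sorry
theorem R2_special : ∃ S : ℝ, 0 < S ∧ ∀ (h : List Bool → Bool) (m j : ℕ), ∃ s : List Lt,
    (s.length : ℝ) ≤ S * lam ^ m * 2 ^ j ∧ R2 (m + 3 + j) (sp h m j) s := sorry

/-! ### Task X, file Chain.lean : the chain argument -/

theorem chain {R : ℕ → (List Bool → Bool) → List Lt → Prop} (hR : Rel R) :
    ∃ C : ℝ, 0 < C ∧ ∀ (N : ℕ) (F : List Bool → Bool), ∃ w : List Lt,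
      (w.length : ℝ) ≤ C * lam ^ N ∧ R N F w := sorry

/-! ### Task Y, file Ker.lean : the label functions of elements fixing level n -/

theorem kernel (n : ℕ) (w : List Lt) (p : List Bool → Bool) (hp : Lab (n + 3) p (ev w)) :
    ∃ F : List Bool → Bool, ∀ v : List Bool, v.length = n → ∀ x y : Bool,
      xor (p (v ++ [x, y, false])) (p (v ++ [x, y, true])) = F v := sorry

/-! ### Task E, file Diam.lean : every element of `G` agrees on level `n` with a word of length `O(λ^n)` -/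

theorem short_words : ∃ C : ℝ, 0 < C ∧ ∀ (n : ℕ) (w : List Lt), ∃ w' : List Lt,
    (w'.length : ℝ) ≤ C * lam ^ n ∧ ∀ u : List Bool, u.length = n → ev w u = ev w' u := sorry

/-! ### Task I, file Fin2.lean : the result for `D n`, `L n` of ExactLength.lean -/

theorem lam_le_L : ∃ C : ℝ, 0 < C ∧ ∀ n : ℕ, 1 ≤ n →
    lam ^ n ≤ C * (Pool.Agent.Results.MP_b99418_al.ExactLength.L n : ℝ) := sorry

theorem D_le_of_short
    (h : ∃ C : ℝ, 0 < C ∧ ∀ (n : ℕ) (w : List Lt), ∃ w' : List Lt,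
      (w'.length : ℝ) ≤ C * lam ^ n ∧ ∀ u : List Bool, u.length = n → ev w u = ev w' u) :
    ∃ C : ℝ, 0 < C ∧ ∀ n : ℕ,
      (Pool.Agent.Results.MP_b99418_al.ExactLength.D n : ℝ) ≤ C * lam ^ n := sorry

end Pool.Agent.H776R2.Diam
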