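import Pool.Agent.H776R2.Diam.Defs

set_option autoImplicit false

/-! Task T: the sums `Tsum`. -/

namespace Pool.Agent.H776R2.Diam

open Pool.Agent.Results.MP_03d093_al.SphereBall Pool.Agent.H776R2.Grig

theorem Tsum_xor (j : ℕ) (f g : List Bool → Bool) (v : List Bool) :
    Tsum j (fun u => xor (f u) (g u)) v = xor (Tsum j f v) (Tsum j g v) := by
  induction j generalizing v with
  | zero => rfl
  | succ j ih =>
    rw [Tsum, Tsum, Tsum, ih, ih]
    cases Tsum j f (v ++ [false]) <;> cases Tsum j f (v ++ [true]) <;>
      cases Tsum j g (v ++ [false]) <;> cases Tsum j g (v ++ [true]) <;> rfl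

theorem Tsum_congr (j : ℕ) (f g : List Bool → Bool) (v : List Bool)
    (h : ∀ u : List Bool, u.length = v.length + j → f u = g u) : Tsum j f v = Tsum j g v := by
  induction j generalizing v with
  | zero => exact h v rfl
  | succ j ih =>
    rw [Tsum, Tsum, ih (v ++ [false]), ih (v ++ [true])]
    · intro u hu
      apply h
      rw [hu, List.length_append, List.length_singleton]; omega
    · intro u hu
      apply h
      rw [hu, List.length_append, List.length_singleton]; omega

theorem T_ext {g : P} (hg : TA g) (v : List Bool) (x : Bool) : ∃ y, g (v ++ [x]) = g v ++ [y] := by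
  have h1 : (g (v ++ [x])).length = v.length + 1 := by
    rw [hg.1, List.length_append, List.length_singleton]
  have h2 : (g (v ++ [x])).take v.length = g v := by
    rw [hg.2, List.take_left']
    rfl
  have h3 : ((g (v ++ [x])).drop v.length).length = 1 := by
    rw [List.length_drop, h1]; omega
  obtain ⟨y, hy⟩ := List.length_eq_one_iff.1 h3
  exact ⟨y, by rw [← h2, ← hy, List.take_append_drop]⟩

theorem T_two {g : P} (hg : TA g) (v : List Bool) :
    ∃ y, g (v ++ [false]) = g v ++ [y] ∧ g (v ++ [true]) = g v ++ [!y] := by
  obtain ⟨y, hy⟩ := T_ext hg v false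
  obtain ⟨z, hz⟩ := T_ext hg v true
  refine ⟨y, hy, ?_⟩
  rw [hz]
  have hne : z ≠ y := by
    rintro rfl
    have := g.injective (hy.trans hz.symm)
    simp at this
  cases y <;> cases z <;> first | rfl | exact absurd rfl hne

theorem T_inv {g : P} (hg : TA g) (j : ℕ) (f : List Bool → Bool) (v : List Bool) :
    Tsum j (fun u => f (g u)) v = Tsum j f (g v) := by
  induction j generalizing v with
  | zero => rfl
  | succ j ih =>
    obtain ⟨y, h1, h2⟩ := T_two hg v
    rw [Tsum, Tsum, ih, ih, h1, h2]
    cases y
    · rfl
    · exact Bool.xor_comm _ _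

/-- equivariance -/
theorem Tsum_inv (j : ℕ) (f : List Bool → Bool) (e : List Lt) (v : List Bool) :
    Tsum j (fun u => f ((ev e)⁻¹ u)) v = Tsum j f ((ev e)⁻¹ v) := by
  rw [← ev_reverse]
  exact T_inv (ta_ev _) j f v

theorem T_sp_aux (h : List Bool → Bool) (m j : ℕ) : ∀ (i k : ℕ) (v : List Bool), i + k = j →
    v.length = m + 3 + k → Tsum i (sp h m j) v =
      (h ((v.drop m).take 3) && decide (v.drop (m + 3) = List.replicate k true)) := by
  intro i
  induction i with
  | zero =>
    intro k v hk hv
    rw [Tsum, sp]
    have : (v.drop (m + 3)).take j = v.drop (m + 3) := by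
      apply List.take_of_length_le
      rw [List.length_drop, hv]; omega
    rw [this]
    have hkj : j = k := by omega
    rw [hkj]
  | succ i ih =>
    intro k v hk hv
    rw [Tsum, ih (k + 1) _ (by omega) (by rw [List.length_append, hv, List.length_singleton]; omega),
      ih (k + 1) _ (by omega) (by rw [List.length_append, hv, List.length_singleton]; omega)]
    have e1 : ∀ x : Bool, ((v ++ [x]).drop m).take 3 = (v.drop m).take 3 := by
      intro x
      rw [List.drop_append_of_le_length (by omega), List.take_append_of_le_length]
      rw [List.length_drop, hv]; omega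
    have e2 : ∀ x : Bool, (v ++ [x]).drop (m + 3) = v.drop (m + 3) ++ [x] := by
      intro x
      rw [List.drop_append_of_le_length (by omega)]
    have e3 : ∀ x : Bool, (v.drop (m + 3) ++ [x] = List.replicate (k + 1) true) ↔
        (v.drop (m + 3) = List.replicate k true ∧ x = true) := by
      intro x
      rw [List.replicate_succ']
      constructor
      · intro h'
        have := List.append_inj' h' rfl
        exact ⟨this.1, by simpa using this.2⟩
      · rintro ⟨h1, h2⟩
        rw [h1, h2]
    rw [e1, e1, e2, e2]
    have e4 : decide (v.drop (m + 3) ++ [false] = List.replicate (k + 1) true) = false := by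
      rw [decide_eq_false_iff_not, e3]; simp
    have e5 : decide (v.drop (m + 3) ++ [true] = List.replicate (k + 1) true) =
        decide (v.drop (m + 3) = List.replicate k true) := by
      rw [decide_eq_decide, e3]; simp
    rw [e4, e5, Bool.and_false, Bool.false_xor]

theorem Tsum_sp (h : List Bool → Bool) (m j : ℕ) (v : List Bool) (hv : v.length = m + 3) :
    Tsum j (sp h m j) v = h (v.drop m) := by
  rw [T_sp_aux h m j j 0 v rfl hv]
  have e1 : (v.drop m).take 3 = v.drop m := by
    apply List.take_of_length_le
    rw [List.length_drop, hv]; omega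
  have e2 : v.drop (m + 3) = List.replicate 0 true := by
    rw [List.replicate_zero, List.drop_eq_nil_iff]; omega
  rw [e1, e2]
  simp

end Pool.Agent.H776R2.Diam
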